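import Pool.Agent.Q259.AS.Mag2
import Pool.Agent.Q259.AS.Gol
import Pool.Agent.TH894.SM0

/-!
# The order of magnitude of the Goldbach representation numbers for all long blocks of digits, in all bases, of a
typical number

Definitions used. `Pool.Agent.H560R3.GB`: `C₂`: the twin prime constant `∏_{p > 2} (1 - 1 / (p - 1) ^ 2)`; `sing n`:
the singular series `2 C₂ ∏_{p ∣ n, p > 2} (p - 1) / (p - 2)`; `g n`: the number of ordered representations of `n` as
a sum of two primes (`r₂(n; ℙ)` in the problem); `HL n = sing n * n / log ^ 2 n`: the prediction of Hardy and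
Littlewood for `g n`. `Pool.Agent.Q259.AS`: `SelfSim μ`: `μ` is a self-similar measure `μ = ∑ p i * (f i)_* μ` of
finitely many maps `f i x = ρ i * x + t i` with `0 < |ρ i| < 1` and `p i > 0`, not all with the same fixed point (that
is, `μ` is not a point mass; overlaps are allowed and the ratios are arbitrary).
-/

set_option autoImplicit false

namespace Pool.Agent.Results.MP_61161c_nt.DigitBlocks

open MeasureTheory Filter Finset Pool.Agent.H560R3.GB Pool.Agent.Q259.AS

/-- (1) the number of representations of `n` as a sum of two primes agrees with the prediction of Hardy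
and Littlewood up to a relative error of at most `ε`; (2) it lies between `(1 - ε) C₂` and `1 + ε` times
`n² / (φ(n) log² n)`; (3) `n` is a sum of two distinct primes. -/
def Holds (ε : ℝ) (n : ℕ) : Prop :=
  |(g n : ℝ) - HL n| ≤ ε * HL n ∧
  (1 - ε) * C₂ * ((n : ℝ) ^ 2 / (n.totient * Real.log n ^ 2)) ≤ g n ∧
  (g n : ℝ) ≤ (1 + ε) * ((n : ℝ) ^ 2 / (n.totient * Real.log n ^ 2)) ∧
  ∃ p q : ℕ, p.Prime ∧ q.Prime ∧ p ≠ q ∧ p + q = n

/-- The integer whose digits in base `b` are the digits of `x` at the places `i + 1, ..., j`: the integer part of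
`b ^ (j - i)` times the fractional part of `b ^ i x`. -/
noncomputable def block (b : ℕ) (x : ℝ) (i j : ℕ) : ℤ := ⌊(b : ℝ) ^ (j - i) * Int.fract ((b : ℝ) ^ i * x)⌋

lemma C₂_nonneg : 0 ≤ C₂ := by
  unfold C₂
  apply Real.iInf_nonneg
  intro z
  apply prod_nonneg
  intro p hp
  rw [mem_filter, mem_Icc] at hp
  exact (Pool.Agent.TH894.SM.fac_pos p hp.1.1).le

lemma holds_of (ε : ℝ) (n : ℕ) (h2 : 2 ∣ n) (h1 : |(g n : ℝ) - HL n| ≤ ε * HL n)
    (hpq : ∃ p q : ℕ, p.Prime ∧ q.Prime ∧ p ≠ q ∧ p + q = n) : Holds ε n := by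
  obtain ⟨p, q, hp, hq, hpq, hn⟩ := hpq
  have hp2 := hp.two_le
  have hn0 : n ≠ 0 := by omega
  have hnr : (0 : ℝ) < n := by exact_mod_cast Nat.pos_of_ne_zero hn0
  have hq2 := hq.two_le
  have hl : 0 < Real.log n := Real.log_pos (by exact_mod_cast (by omega : 1 < n))
  have ht : (0 : ℝ) < n.totient := by exact_mod_cast Nat.totient_pos.2 (Nat.pos_of_ne_zero hn0)
  obtain ⟨s1, s2⟩ := Pool.Agent.TH894.SM.sing_tot n hn0 h2
  have hC := C₂_nonneg
  obtain ⟨Q, hQ⟩ : ∃ Q : ℝ, Q = n / Real.log n ^ 2 := ⟨_, rfl⟩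
  have hQ0 : 0 < Q := by rw [hQ]; positivity
  have e : (n : ℝ) ^ 2 / (n.totient * Real.log n ^ 2) = n / n.totient * Q := by
    rw [hQ]
    field_simp
  have hHL : HL n = sing n * Q := by
    unfold HL
    rw [hQ]
  have hR0 : 0 < (n : ℝ) / n.totient := by positivity
  refine ⟨h1, ?_, ?_, p, q, hp, hq, hpq, hn⟩
  · rw [e]
    rw [hHL, abs_le] at h1
    rcases le_or_gt ε 1 with hε1 | hε1
    · have h3 : (1 - ε) * (C₂ * (n / n.totient) * Q) ≤ (1 - ε) * (sing n * Q) := by
        apply mul_le_mul_of_nonneg_left _ (by linarith)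
        exact mul_le_mul_of_nonneg_right s1 hQ0.le
      have e2 : (1 - ε) * C₂ * (n / n.totient * Q) = (1 - ε) * (C₂ * (n / n.totient) * Q) := by ring
      rw [e2]
      linarith [h1.1]
    · have h3 : (1 - ε) * C₂ * (n / n.totient * Q) ≤ 0 := by
        apply mul_nonpos_of_nonpos_of_nonneg _ (by positivity)
        exact mul_nonpos_of_nonpos_of_nonneg (by linarith) hC
      exact h3.trans (Nat.cast_nonneg _)
  · rw [e]
    rw [hHL, abs_le] at h1
    by_cases hε : 0 ≤ 1 + ε
    · have h3 : (1 + ε) * (sing n * Q) ≤ (1 + ε) * (n / n.totient * Q) := by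
        apply mul_le_mul_of_nonneg_left _ hε
        exact mul_le_mul_of_nonneg_right s2 hQ0.le
      linarith [h1.2]
    · exfalso
      push Not at hε
      have hs := Pool.Agent.W93.GB.one_le_sing n
      have h4 : 0 < sing n * Q := by
        have : 0 < sing n := by linarith
        positivity
      have h5 : (g n : ℝ) ≤ (1 + ε) * (sing n * Q) := by linarith [h1.2]
      have h6 : (1 + ε) * (sing n * Q) < 0 := mul_neg_of_neg_of_pos hε h4
      have h7 : (0 : ℝ) ≤ g n := Nat.cast_nonneg _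
      linarith

/-- Let `μ` be a self-similar probability measure on the line which is not a point mass (for instance a Cantor measure
or a Bernoulli convolution). Then `μ`-almost every `x` has the following property. Let `ε > 0` and `δ > 0` be
arbitrarily small and `A`, `T` be arbitrarily large. For all large `j`, in ALL bases `2 ≤ b ≤ j ^ T` and for ALL
multiples `m x`, `1 ≤ m ≤ j ^ T`, consider ALL the blocks formed by the digits of `m x` at the places `i + 1, ..., j`
which have at least `j ^ δ` digits. Every positive even integer `n` whose distance from the integer with these digits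
is at most the power `A` of the length of the block is a sum of two distinct primes, and the number `g n` of these
representations agrees with the prediction of Hardy and Littlewood up to a relative error of at most `ε`; in
particular `(1 - ε) C₂ n² / (φ(n) log² n) ≤ g n ≤ (1 + ε) n² / (φ(n) log² n)`. -/
theorem result (μ : Measure ℝ) [IsProbabilityMeasure μ] (hμ : SelfSim μ) :
    ∀ᵐ x ∂μ, ∀ ε δ : ℝ, 0 < ε → 0 < δ → ∀ A T : ℕ, ∀ᶠ j : ℕ in atTop, ∀ b m : ℕ, 2 ≤ b → b ≤ j ^ T → 1 ≤ m → m ≤ j ^ T →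
      ∀ i : ℕ, i ≤ j → (j : ℝ) ^ δ ≤ ((j - i : ℕ) : ℝ) →
      ∀ n : ℕ, 0 < n → Even n → |(n : ℝ) - block b (m * x) i j| ≤ ((j - i : ℕ) : ℝ) ^ A → Holds ε n := by
  classical
  have h1 : ∀ e d A T : ℕ, ∀ᵐ x ∂μ, ∀ᶠ j : ℕ in atTop, ∀ b m : ℕ, 2 ≤ b → b ≤ j ^ T → 1 ≤ m → m ≤ j ^ T →
      ∀ i : ℕ, i ≤ j → (j : ℝ) ^ (1 / ((d : ℝ) + 1)) ≤ ((j - i : ℕ) : ℝ) → ∀ n ∈ {n : ℤ | 0 < n ∧ 2 ∣ n ∧
      ¬ (|(g n.toNat : ℝ) - HL n.toNat| ≤ 1 / ((e : ℝ) + 1) * HL n.toNat ∧
        ∃ p q : ℕ, p.Prime ∧ q.Prime ∧ p ≠ q ∧ p + q = n.toNat)},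
      ((j - i : ℕ) : ℝ) ^ A < |(n : ℝ) - dblock b (m * x) i j| := by
    intro e d A T
    exact as_blocks (eng_goldbach (1 / ((e : ℝ) + 1)) (by positivity)) μ hμ (1 / ((d : ℝ) + 1)) (by positivity) A T
  have h2 := ae_all_iff.2 (fun e => ae_all_iff.2 (fun d => ae_all_iff.2 (fun A => ae_all_iff.2 (h1 e d A))))
  filter_upwards [h2] with x hx ε δ hε hδ A T
  obtain ⟨e, he⟩ := exists_nat_one_div_lt hε
  obtain ⟨d, hd⟩ := exists_nat_one_div_lt hδ
  filter_upwards [hx e d A T, eventually_ge_atTop 1] with j hj hj1 b m hb hbT hm hmT i hi hij n hn hev hdist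
  have hj1r : (1 : ℝ) ≤ j := by exact_mod_cast hj1
  have hij' : (j : ℝ) ^ (1 / ((d : ℝ) + 1)) ≤ ((j - i : ℕ) : ℝ) :=
    (Real.rpow_le_rpow_of_exponent_le hj1r hd.le).trans hij
  by_contra hcon
  have h3 := hj b m hb hbT hm hmT i hi hij' (n : ℤ) ?_
  · have h4 : (dblock b (m * x) i j : ℝ) = block b (m * x) i j := rfl
    rw [h4] at h3
    push_cast at h3
    linarith
  · refine ⟨by exact_mod_cast hn, by exact_mod_cast hev.two_dvd, fun h => hcon ?_⟩
    rw [Int.toNat_natCast] at h
    apply holds_of ε n hev.two_dvd _ h.2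
    refine h.1.trans (mul_le_mul_of_nonneg_right he.le ?_)
    by_contra hneg
    push Not at hneg
    have h4 := h.1
    have h5 : (0 : ℝ) < 1 / ((e : ℝ) + 1) := by positivity
    have h6 := abs_nonneg ((g n : ℝ) - HL n)
    nlinarith [mul_neg_of_pos_of_neg h5 hneg]

end Pool.Agent.Results.MP_61161c_nt.DigitBlocks
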