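import Pool.Agent.Q204.CD.Chen
import Pool.Agent.Q253.Cov.Pig

/-!
# Chen's theorem for several even numbers at once

For any `m` large even numbers `N_1, ..., N_m` of the same order of magnitude there are integers `e_1, ..., e_m` such that for the expected
order of magnitude of the `y` ALL the numbers `p_i = e_i + y` are primes below `N_i / 2` and all `N_i - p_i` are products of at most two
primes; and the set of these `y` contains narrow arithmetic progressions, so that one common difference serves all `m` numbers.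

The joint sifting system of several windows, with shifts chosen by averaging. Libraries (starting files): `Y840.CT` (Chen's theorem for tuples
in windows, uniformly in the shifts), `Y843.HS.fin` (Szemerédi relative to sifted sets), `H177R2.SD.Avg`.
-/

set_option autoImplicit false

namespace Pool.Agent.Results.MP_61161c_nt.JointChen

open Finset Filter
open Pool.Agent.Y843.HS (Pr VV Pr_mem Pr_prime)
open Pool.Agent.Q253.Cov (pigeon)
open Pool.Agent.Y840.CT (Sys rho Good)
open Pool.Agent.Q204.CD (chen_joint Zc)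

/-- `n ≠ 0` has at most `k` prime factors (with multiplicity), all larger than `z` -/
def Rough (k : ℕ) (z : ℝ) (n : ℤ) : Prop :=
  n ≠ 0 ∧ n.natAbs.primeFactorsList.length ≤ k ∧ ∀ q : ℕ, q.Prime → (q : ℤ) ∣ n → z < q

/-- `H` consists of at most `r` nonzero integers of absolute value at most `X`, and no prime `q` divides `n * ∏ (h - n)`, `h ∈ H`, for all `n` -/
def Admissible (r X : ℕ) (H : Finset ℤ) : Prop :=
  H.card ≤ r ∧ (∀ h ∈ H, h ≠ 0 ∧ |h| ≤ X) ∧ ∀ q : ℕ, q.Prime → ∃ n : ℤ, ∀ h ∈ insert 0 H, ¬ (q : ℤ) ∣ h - n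

open Classical in
/-- the primes `p > X ^ (1/t)` of `(A, B]` such that `h₀ - p` has at most two prime factors, both `> X ^ (1/9)`, and all `h - p`, `h ∈ H`, have at
most `t` prime factors, all `> X ^ (1/t)` -/
noncomputable def ChenPrimes (t X A B : ℕ) (H : Finset ℤ) (h₀ : ℤ) : Finset ℕ :=
  (Ioc A B).filter (fun p : ℕ => p.Prime ∧ (X : ℝ) ^ (1 / (t : ℝ)) < p ∧ Rough 2 ((X : ℝ) ^ (1 / 9 : ℝ)) (h₀ - p) ∧
    ∀ h ∈ H, Rough t ((X : ℝ) ^ (1 / (t : ℝ))) (h - p))

/-- the product over the primes `p ≤ X` of `1 - ρ(p) / p`, `ρ(p)` the number of the classes `c` modulo `p` for which `p` divides one of the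
integers `h - (e i + c)`, `h ∈ H i` or `h = 0` -/
noncomputable def dens {m : ℕ} (H : Fin m → Finset ℤ) (e : Fin m → ℤ) (X : ℕ) : ℝ :=
  ∏ p ∈ (Icc 1 X).filter Nat.Prime, (1 - (((range p).filter (fun c : ℕ => ∃ i, ∃ h ∈ insert 0 (H i), (p : ℤ) ∣ h - (e i + c))).card : ℝ) / p)

lemma dens_eq {m : ℕ} (H : Fin m → Finset ℤ) (e : Fin m → ℤ) (X : ℕ) : dens H e X = VV (Zc H e) 0 X := by
  unfold dens VV
  have h1 : Pr 0 X = (Icc 1 X).filter Nat.Prime := by
    ext p
    rw [Pr_mem, mem_filter, mem_Icc]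
    constructor
    · rintro ⟨⟨a, b⟩, c⟩
      exact ⟨⟨c.pos, b⟩, c⟩
    · rintro ⟨⟨a, b⟩, c⟩
      exact ⟨⟨c.pos, b⟩, c⟩
  rw [h1]
  apply prod_congr rfl
  intro p _
  congr 3

lemma chen_eq (t X A B : ℕ) (H : Finset ℤ) (h₀ : ℤ) : ChenPrimes t X A B H h₀ = Good t X A B H h₀ := rfl

lemma sys_of {r X : ℕ} {H : Finset ℤ} (h : Admissible r X H) : Sys r X H := by
  classical
  refine ⟨h.1, h.2.1, ?_⟩
  intro q hq
  obtain ⟨n, hn⟩ := h.2.2 q hq
  have hq0 : (0 : ℤ) < q := by exact_mod_cast hq.pos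
  have h1 : (insert 0 H).image (fun h : ℤ => h % q) ⊆ ((range q).image (fun c : ℕ => (c : ℤ))).erase (n % q) := by
    intro c hc
    rw [mem_image] at hc
    obtain ⟨a, ha, rfl⟩ := hc
    rw [mem_erase]
    refine ⟨?_, ?_⟩
    · intro he
      exact hn a ha (Int.ModEq.dvd (Int.ModEq.symm he))
    · rw [mem_image]
      refine ⟨(a % q).toNat, ?_, ?_⟩
      · rw [mem_range]
        have := Int.emod_lt_of_pos a hq0
        have h2 := Int.emod_nonneg a hq0.ne'
        omega
      · exact Int.toNat_of_nonneg (Int.emod_nonneg a hq0.ne')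
  have h2 : n % q ∈ (range q).image (fun c : ℕ => (c : ℤ)) := by
    rw [mem_image]
    refine ⟨(n % q).toNat, ?_, ?_⟩
    · rw [mem_range]
      have := Int.emod_lt_of_pos n hq0
      have h2 := Int.emod_nonneg n hq0.ne'
      omega
    · exact Int.toNat_of_nonneg (Int.emod_nonneg n hq0.ne')
  unfold rho
  calc ((insert 0 H).image (fun h : ℤ => h % q)).card ≤ (((range q).image (fun c : ℕ => (c : ℤ))).erase (n % q)).card := card_le_card h1
    _ < ((range q).image (fun c : ℕ => (c : ℤ))).card := card_erase_lt_of_mem h2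
    _ ≤ (range q).card := card_image_le
    _ = q := card_range q

lemma adm_even {X N : ℕ} (h0 : 1 ≤ N) (h2 : Even N) (hX : N ≤ X) : Admissible 1 X {(N : ℤ)} := by
  refine ⟨by simp, ?_, ?_⟩
  · intro h hh
    rw [mem_singleton] at hh
    rw [hh]
    refine ⟨by exact_mod_cast (by omega : N ≠ 0), ?_⟩
    rw [Nat.abs_cast]
    exact_mod_cast hX
  · intro q hq
    by_cases hq2 : q = 2
    · subst hq2
      refine ⟨1, ?_⟩
      intro h hh
      obtain ⟨w, hw⟩ := h2
      rw [mem_insert, mem_singleton] at hh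
      rcases hh with rfl | rfl
      · norm_num
      · rw [hw]
        push_cast
        omega
    · -- one of `1, 2` is not `0` or `N` modulo `q`, or `-1`
      have hq3 : 3 ≤ q := by
        have := hq.two_le
        omega
      by_cases h1 : (q : ℤ) ∣ (N : ℤ) - 1
      · refine ⟨2, ?_⟩
        intro h hh
        rw [mem_insert, mem_singleton] at hh
        rcases hh with rfl | rfl
        · intro hd
          have := Int.le_of_dvd (by norm_num) ((dvd_neg.2 hd))
          omega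
        · intro hd
          have h3 := dvd_sub h1 hd
          have := Int.le_of_dvd (by norm_num) (show (q : ℤ) ∣ 1 by
            have e : (N : ℤ) - 1 - (N - 2) = 1 := by ring
            rwa [e] at h3)
          omega
      · refine ⟨1, ?_⟩
        intro h hh
        rw [mem_insert, mem_singleton] at hh
        rcases hh with rfl | rfl
        · intro hd
          have := Int.le_of_dvd (by norm_num) ((dvd_neg.2 hd))
          omega
        · exact h1

/-- **Chen's theorem for `m` even numbers at once.** (1) For every `r` there is `t` such that for all `m ≥ 1`, `θ, ε > 0` there is `c > 0` such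
that for all `k` and `η > 0` there is `D` such that for all large `X`, ANY `m` admissible sets `H_i` of at most `r` shifts in `[-X, X]`, all
`h_i ∈ H_i`, all windows `(A_i, B_i]`, `B_i ≤ X`, `B_i - A_i ≥ θ X`, and any sets `S_i` of relative density at least `ε` in the sets of
the primes `p ∈ (A_i, B_i]` for which `h_i - p` is a product of at most two primes `> X ^ (1/9)` and all `h - p`, `h ∈ H_i`, are products
of at most `t` primes `> X ^ (1/t)`: there are integers `e_1, ..., e_m` such that the set `J` of the `y ≤ X` with `e_i + y ∈ S_i` for ALL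
`i` has at least `c X dens` elements, and each subset of `J` of relative density at least `η` contains a progression of length `k` with
difference `≤ log ^ D X`. (2) For all `m, c₀ ≥ 1` and `θ > 0` there is `γ > 0` such that for all `k` there is `D` such that for all large `X`, all
even `N_1, ..., N_m` in `[θ X, X]`, windows `(u_i, v_i]` with `2 v_i < N_i`, `v_i - u_i ≥ θ X`, and colourings `χ_i` of the integers with `c₀`
colours there are integers `e_i`, numbers `s_i ∈ {1, 2}` and colours `b_i` such that for at least `γ X dens` of the `y ≤ X`, for ALL `i`,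
`p_i = e_i + y` is a prime of `(u_i, v_i]` of colour `b_i` and `N_i - p_i` has exactly `s_i` prime factors, all `> X ^ (1/9)`; and these
`y` contain a progression of length `k` with difference `≤ log ^ D X`. -/
theorem result :
    (∀ r : ℕ, ∃ t : ℕ, 1 ≤ t ∧ ∀ (m : ℕ) (θ ε : ℝ), 1 ≤ m → 0 < θ → 0 < ε →
      ∃ c : ℝ, 0 < c ∧ ∀ (k : ℕ) (η : ℝ), 0 < η → ∃ D X₀ : ℕ, ∀ X : ℕ, X₀ ≤ X →
      ∀ (H : Fin m → Finset ℤ) (h₀ : Fin m → ℤ) (A B : Fin m → ℕ),
      (∀ i, Admissible r X (H i) ∧ h₀ i ∈ H i ∧ B i ≤ X ∧ θ * X ≤ (B i : ℝ) - A i) →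
      ∀ S : Fin m → Finset ℕ, (∀ i, S i ⊆ ChenPrimes t X (A i) (B i) (H i) (h₀ i) ∧
        ε * ((ChenPrimes t X (A i) (B i) (H i) (h₀ i)).card : ℝ) ≤ (S i).card) →
      ∃ e : Fin m → ℤ, ∃ J : Finset ℕ, (∀ y, y ∈ J ↔ (1 ≤ y ∧ y ≤ X ∧ ∀ i, ∃ n ∈ S i, (n : ℤ) = e i + y)) ∧
        c * (X * dens H e X) ≤ (J.card : ℝ) ∧
        ∀ S' ⊆ J, η * (J.card : ℝ) ≤ S'.card → ∃ a d : ℕ, 1 ≤ d ∧ (d : ℝ) ≤ Real.log X ^ D ∧ ∀ l < k, a + l * d ∈ S') ∧
    (∀ (m c₀ : ℕ) (θ : ℝ), 1 ≤ m → 0 < θ → ∃ γ : ℝ, 0 < γ ∧ ∀ k : ℕ, ∃ D X₀ : ℕ, ∀ X : ℕ, X₀ ≤ X →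
      ∀ N u v : Fin m → ℕ, (∀ i, Even (N i) ∧ θ * X ≤ N i ∧ N i ≤ X ∧ 2 * v i < N i ∧ θ * X ≤ (v i : ℝ) - u i) →
      ∀ χ : Fin m → ℕ → Fin c₀,
      ∃ e : Fin m → ℤ, ∃ s : Fin m → ℕ, ∃ b : Fin m → Fin c₀, ∃ J : Finset ℕ, (∀ i, s i = 1 ∨ s i = 2) ∧
        (∀ y ∈ J, 1 ≤ y ∧ y ≤ X ∧ ∀ i, ∃ p : ℕ, (p : ℤ) = e i + y ∧ p.Prime ∧ u i < p ∧ p ≤ v i ∧ χ i p = b i ∧
          (N i - p).primeFactorsList.length = s i ∧ ∀ q : ℕ, q.Prime → q ∣ N i - p → (X : ℝ) ^ (1 / 9 : ℝ) < q) ∧
        γ * (X * dens (fun i => {(N i : ℤ)}) e X) ≤ (J.card : ℝ) ∧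
        ∃ a d : ℕ, 1 ≤ d ∧ (d : ℝ) ≤ Real.log X ^ D ∧ ∀ l < k, a + l * d ∈ J) := by
  classical
  refine ⟨?_, ?_⟩
  · intro r
    obtain ⟨t, ht, H0⟩ := chen_joint r
    refine ⟨t, ht, ?_⟩
    intro m θ ε hm hθ hε
    obtain ⟨c, hc, H1⟩ := H0 m θ ε hm hθ hε
    refine ⟨c, hc, ?_⟩
    intro k η hη
    obtain ⟨D, X₀, H2⟩ := H1 k η hη
    refine ⟨D, X₀, ?_⟩
    intro X hX H h₀ A B hHA S hS
    simp only [dens_eq]
    simp only [chen_eq] at hS
    exact H2 X hX H h₀ A B (fun i => ⟨sys_of (hHA i).1, (hHA i).2⟩) S (fun i => (hS i).1) (fun i => (hS i).2)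
  · intro m c₀ θ hm hθ
    obtain ⟨t, ht, H0⟩ := chen_joint 1
    obtain ⟨γ, hγ, H1⟩ := H0 m θ (1 / ((2 * c₀ : ℕ) + 1 : ℝ)) hm hθ (by positivity)
    refine ⟨γ, hγ, ?_⟩
    intro k
    obtain ⟨D, X₀, H2⟩ := H1 k 1 one_pos
    refine ⟨D, max X₀ 1, ?_⟩
    intro X hX N u v hN χ
    have hX0 : X₀ ≤ X := (le_max_left _ _).trans hX
    have hX1 : (1 : ℝ) ≤ X := by exact_mod_cast (le_max_right _ _).trans hX
    have hNpos : ∀ i, 1 ≤ N i := by
      intro i
      obtain ⟨a1, a2, a3, a4, a5⟩ := hN i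
      omega
    have hsys : ∀ i, Sys 1 X {(N i : ℤ)} := fun i => sys_of (adm_even (hNpos i) (hN i).1 (hN i).2.2.1)
    -- the elements
    have hmem : ∀ i, ∀ p ∈ Good t X (u i) (v i) {(N i : ℤ)} (N i), p.Prime ∧ u i < p ∧ p ≤ v i ∧
        1 ≤ (N i - p).primeFactorsList.length ∧ (N i - p).primeFactorsList.length ≤ 2 ∧
        ∀ q : ℕ, q.Prime → q ∣ N i - p → (X : ℝ) ^ (1 / 9 : ℝ) < q := by
      intro i p hp
      unfold Good at hp
      rw [mem_filter, mem_Ioc] at hp
      obtain ⟨⟨a1, a2⟩, a3, -, ⟨b1, b2, b3⟩, -⟩ := hp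
      obtain ⟨-, -, c3, c4, -⟩ := hN i
      have h2p := a3.two_le
      have e1 : ((N i : ℤ) - p) = ((N i - p : ℕ) : ℤ) := by
        rw [Nat.cast_sub (by omega)]
      rw [e1] at b1 b2 b3
      rw [Int.natAbs_natCast] at b2
      refine ⟨a3, a1, a2, ?_, b2, ?_⟩
      · by_contra hcon
        have h3 : (N i - p).primeFactorsList.length = 0 := by omega
        have h4 := List.length_eq_zero_iff.1 h3
        rw [Nat.primeFactorsList_eq_nil] at h4
        omega
      · intro q hq hqd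
        exact b3 q hq (by exact_mod_cast hqd)
    -- the colour classes
    have hcls : ∀ i, ∃ se : ℕ × Fin c₀, (se.1 = 1 ∨ se.1 = 2) ∧ 1 / ((2 * c₀ : ℕ) + 1 : ℝ) *
        ((Good t X (u i) (v i) {(N i : ℤ)} (N i)).card : ℝ) ≤
        (((Good t X (u i) (v i) {(N i : ℤ)} (N i)).filter (fun p => ((N i - p).primeFactorsList.length, χ i p) = se)).card : ℝ) := by
      intro i
      have hc0 : 0 < c₀ := by
        have := (χ i 0).2
        omega
      set G := Good t X (u i) (v i) {(N i : ℤ)} (N i) with hG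
      obtain ⟨se, hse, hcard⟩ := pigeon G ((Icc 1 2) ×ˢ (univ : Finset (Fin c₀)))
        (fun p => ((N i - p).primeFactorsList.length, χ i p)) (by
          intro p hp
          rw [hG] at hp
          have h1 := hmem i p hp
          rw [mem_product, mem_Icc]
          exact ⟨⟨h1.2.2.2.1, h1.2.2.2.2.1⟩, mem_univ _⟩) (by
          refine ⟨(1, ⟨0, hc0⟩), ?_⟩
          rw [mem_product, mem_Icc]
          exact ⟨⟨le_rfl, by norm_num⟩, mem_univ _⟩)
      rw [mem_product, mem_Icc] at hse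
      refine ⟨se, by have := hse.1.1; have := hse.1.2; omega, le_trans ?_ hcard⟩
      apply mul_le_mul_of_nonneg_right _ (by positivity)
      have h1 : ((Icc 1 2) ×ˢ (univ : Finset (Fin c₀))).card = 2 * c₀ := by
        rw [card_product, Nat.card_Icc, card_univ, Fintype.card_fin]
      rw [h1]
      apply one_div_le_one_div_of_le
      · have : 0 < 2 * c₀ := by omega
        exact_mod_cast this
      · linarith
    choose se hse1 hse2 using hcls
    obtain ⟨e, J, hJ, hJc, hJap⟩ := H2 X hX0 (fun i => {(N i : ℤ)}) (fun i => (N i : ℤ)) u v (by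
      intro i
      obtain ⟨a1, a2, a3, a4, a5⟩ := hN i
      exact ⟨hsys i, mem_singleton_self _, by omega, a5⟩)
      (fun i => (Good t X (u i) (v i) {(N i : ℤ)} (N i)).filter (fun p => ((N i - p).primeFactorsList.length, χ i p) = se i))
      (fun i => filter_subset _ _) hse2
    refine ⟨e, fun i => (se i).1, fun i => (se i).2, J, hse1, ?_, ?_, ?_⟩
    · intro y hy
      obtain ⟨y1, y2, y3⟩ := (hJ y).1 hy
      refine ⟨y1, y2, ?_⟩
      intro i
      obtain ⟨p, hp, hpe⟩ := y3 i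
      rw [mem_filter] at hp
      obtain ⟨a1, a2, a3, a4, a5, a6⟩ := hmem i p hp.1
      exact ⟨p, hpe, a1, a2, a3, congrArg Prod.snd hp.2, congrArg Prod.fst hp.2, a6⟩
    · rw [dens_eq]
      exact hJc
    · exact hJap J (subset_refl J) (by rw [one_mul])

end Pool.Agent.Results.MP_61161c_nt.JointChen
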