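import Pool.Agent.Q253.Thin.QAP
import Pool.Agent.Q253.Thin.GoldSample

/-!
# Every large even number: the right number of representations as a sum of two distinct odd primes, or as
`p + q_i p'` for `k` primes `q_i` in a narrow arithmetic progression

For every large even `N` and every window one of the following holds:

* the number of the representations `N = p + p'` with distinct odd primes `p, p'` and `p` in the window has the
  expected order of magnitude (as a lower bound);
* there are `k` primes `q_0 < q_1 < ... < q_{k-1}` in an arithmetic progression with difference `≤ log ^ D N`, all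
  larger than `N ^ (1/9)`, such that for EVERY `i` the number of the representations `N = p + q_i p'` with primes
  `p, p'`, `p' ≥ q_i`, `p` in the window, has the expected order of magnitude; moreover the primes `q` with this
  property have a positive share `ρ` of the sum of the reciprocals of all primes between `N ^ (1/9)` and `N ^ (1/2)`.

Libraries: `Y840.CT.GenF` (Chen's theorem in windows), `Y151.HS.FLC` (fundamental lemma in residue classes),
`Y843.HS.Top` (Szemerédi's theorem relative to sifted sets), all starting files.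
-/

set_option autoImplicit false

namespace Pool.Agent.Results.MP_61161c_nt.ProgressionsOfFactors

open Finset Filter
open Pool.Agent.Y840.CT Pool.Agent.Q253.Thin

/-- the number of the representations `N = p + p'` with distinct odd primes `p, p'` and `u < p ≤ v` -/
def rep (N u v : ℕ) : ℕ :=
  ((Ioc u v).filter (fun p => p.Prime ∧ (N - p).Prime ∧ Odd p ∧ Odd (N - p) ∧ p ≠ N - p)).card

open Classical in
/-- the number of the representations `N = p + q p'` with primes `p, p'`, `p' ≥ q` and `u < p ≤ v` -/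
noncomputable def repq (q N u v : ℕ) : ℕ :=
  ((Ioc u v).filter (fun p => p.Prime ∧ ∃ p' : ℕ, p'.Prime ∧ q ≤ p' ∧ N = p + q * p')).card

/-- the primes `q` for which `repq` has the expected order of magnitude -/
def Good (c : ℝ) (N u v q : ℕ) : Prop :=
  q.Prime ∧ (N : ℝ) ^ (1 / 9 : ℝ) < q ∧ q ^ 2 ≤ N ∧
    c * ((N : ℝ) / N.totient * (((v : ℝ) - u) / (q * Real.log N ^ 2))) ≤ repq q N u v

/-- There are `c, ρ > 0` such that for all `k` and `θ > 0` there are `D` and `N₀` such that for all even `N ≥ N₀` and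
all `0 ≤ u < v ≤ N` with `v - u ≥ θ N` one of the following holds:

(1) `N` has at least `c (N / φ(N)) (v - u) / log ^ 2 N` representations as a sum of two distinct odd primes, the first
one in `(u, v]`;

(2) `∑ 1 / q ≥ ρ` for the primes `q`, `N ^ (1/9) < q ≤ N ^ (1/2)`, for which `N = p + q p'` has at least
`c (N / φ(N)) (v - u) / (q log ^ 2 N)` solutions in primes `p` of `(u, v]` and `p' ≥ q`, and there are `k` such primes
`q` in an arithmetic progression with difference at most `log ^ D N`. -/
theorem result : ∃ c ρ : ℝ, 0 < c ∧ 0 < ρ ∧ ∀ (k : ℕ) (θ : ℝ), 0 < θ → ∃ D N₀ : ℕ, ∀ N : ℕ, N₀ ≤ N → Even N →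
    ∀ u v : ℕ, v ≤ N → θ * N ≤ (v : ℝ) - u →
      c * ((N : ℝ) / N.totient * (((v : ℝ) - u) / Real.log N ^ 2)) ≤ rep N u v ∨
      ((∃ G : Finset ℕ, (∀ q ∈ G, Good c N u v q) ∧ ρ ≤ ∑ q ∈ G, (1 : ℝ) / q) ∧
        ∃ q d : ℕ, 1 ≤ d ∧ (d : ℝ) ≤ Real.log N ^ D ∧ ∀ j < k, Good c N u v (q + j * d)) := by
  classical
  obtain ⟨t, ht, c0, hc0, ρ, hρ, hd⟩ := dich 1
  obtain ⟨c2, hc2, hVlow⟩ := VG_low
  refine ⟨c0 * c2 / 2, ρ, by positivity, hρ, ?_⟩
  intro k θ hθ
  obtain ⟨X₁, h1⟩ := hd θ hθ
  obtain ⟨D, y₀, h2⟩ := primes_ap k (ρ / 72) (by positivity)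
  obtain ⟨X₂, h3⟩ := eventually_atTop.1 (ev_qap y₀)
  obtain ⟨X₃, h4⟩ := eventually_atTop.1 (ev_two 1 (c0 * c2 * θ / 2) (by positivity))
  refine ⟨D, max (max X₁ X₂) (max X₃ (max 16 (3 ^ t))), ?_⟩
  intro N hN hNe u v hv huv
  have n1 : X₁ ≤ N := (le_max_left _ _).trans ((le_max_left _ _).trans hN)
  have n2 : X₂ ≤ N := (le_max_right _ _).trans ((le_max_left _ _).trans hN)
  have n3 : X₃ ≤ N := (le_max_left _ _).trans ((le_max_right _ _).trans hN)
  have n4 : 16 ≤ N := (le_max_left _ _).trans ((le_max_right _ _).trans ((le_max_right _ _).trans hN))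
  have n5 : 3 ^ t ≤ N := (le_max_right _ _).trans ((le_max_right _ _).trans ((le_max_right _ _).trans hN))
  have hNr : (16 : ℝ) ≤ N := by exact_mod_cast n4
  have hN0 : (0 : ℝ) < N := by linarith
  have hlN : 0 < Real.log N := Real.log_pos (by linarith)
  have hφ : (0 : ℝ) < N.totient := by exact_mod_cast Nat.totient_pos.2 (by omega)
  have hφN : (1 : ℝ) ≤ (N : ℝ) / N.totient := by
    rw [one_le_div hφ]
    exact_mod_cast Nat.totient_le N
  have huv0 : (0 : ℝ) < (v : ℝ) - u := lt_of_lt_of_le (by positivity) huv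
  have hsys := sysN (show 2 ≤ N by omega) hNe le_rfl
  have hV := hVlow N (by omega) hNe
  have h9 := h3 N n2
  have ht3 : (3 : ℝ) ≤ (N : ℝ) ^ (1 / (t : ℝ)) := by
    have h5 := le_rpow_of_pow_le (a := 3) (X := N) (t := t) ht n5
    exact_mod_cast h5
  have hmain : ∀ q : ℝ, 0 < q → c0 * c2 * ((N : ℝ) / N.totient * (((v : ℝ) - u) / (q * Real.log N ^ 2))) ≤
      c0 * (((v : ℝ) - u) * VF (fun _ => {(N : ℤ)}) N / q) := by
    intro q hq
    have h5 : ((v : ℝ) - u) * (c2 * (N / (N.totient * Real.log N ^ 2))) / q ≤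
        ((v : ℝ) - u) * VF (fun _ => {(N : ℤ)}) N / q :=
      div_le_div_of_nonneg_right (mul_le_mul_of_nonneg_left hV huv0.le) hq.le
    refine le_trans (le_of_eq ?_) (mul_le_mul_of_nonneg_left h5 hc0.le)
    field_simp
  -- the elements
  have hgood : ∀ p ∈ GoodF t N u v (fun _ => {(N : ℤ)}) N, u < p ∧ p ≤ v ∧ p.Prime ∧ 3 < p ∧
      ((N : ℤ) - p).natAbs = N - p ∧ ∀ q : ℕ, q.Prime → q ∣ N - p → (N : ℝ) ^ (1 / 9 : ℝ) < q := by
    intro p hp
    unfold GoodF at hp
    rw [mem_filter, mem_Ioc] at hp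
    obtain ⟨⟨p1, p2⟩, pp, pt, ⟨pr1, pr2, pr3⟩, pF⟩ := hp
    have e : ((N : ℤ) - p).natAbs = N - p := by omega
    refine ⟨p1, p2, pp, ?_, e, ?_⟩
    · have : (3 : ℝ) < p := lt_of_le_of_lt ht3 pt
      exact_mod_cast this
    · intro q hq hd
      apply pr3 q hq
      rw [Int.natCast_dvd, e]
      exact hd
  rcases h1 N n1 (fun _ => {(N : ℤ)}) N hsys u v hv huv with h | h
  · left
    have h5 : (PF t N u v (fun _ => {(N : ℤ)}) N).card ≤ rep N u v + 1 := by
      unfold rep
      rw [← card_singleton (N / 2)]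
      refine le_trans (card_le_card ?_) (card_union_le _ _)
      intro p hp
      unfold PF at hp
      rw [mem_filter] at hp
      obtain ⟨a1, a2, a3, a4, a5, a6⟩ := hgood p hp.1
      have hpN := hp.2
      rw [a5] at hpN
      rw [mem_union, mem_filter, mem_Ioc, mem_singleton]
      by_cases h0 : p = N / 2
      · right
        exact h0
      · left
        have hodd : Odd p := a3.odd_of_ne_two (by omega)
        have h7 : p < N := by
          have := hpN.pos
          omega
        refine ⟨⟨a1, a2⟩, a3, hpN, hodd, ?_, ?_⟩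
        · rcases hNe with ⟨w, hw⟩
          rcases hodd with ⟨z, hz⟩
          exact ⟨w - z - 1, by omega⟩
        · omega
    have h6 : ((PF t N u v (fun _ => {(N : ℤ)}) N).card : ℝ) ≤ rep N u v + 1 := by exact_mod_cast h5
    have h7 := hmain 1 one_pos
    rw [one_mul, div_one] at h7
    have h8 := h4 N n3
    have h10 : 1 ≤ c0 * c2 / 2 * ((N : ℝ) / N.totient * (((v : ℝ) - u) / Real.log N ^ 2)) := by
      have h11 : θ * N / Real.log N ^ 2 ≤ (N : ℝ) / N.totient * (((v : ℝ) - u) / Real.log N ^ 2) := by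
        calc θ * N / Real.log N ^ 2 ≤ ((v : ℝ) - u) / Real.log N ^ 2 := div_le_div_of_nonneg_right huv (by positivity)
          _ ≤ _ := le_mul_of_one_le_left (by positivity) hφN
      refine le_trans ?_ (mul_le_mul_of_nonneg_left h11 (by positivity))
      rw [← mul_div_assoc, one_le_div (by positivity)]
      have h12 : Real.log N ^ (1 + 1) = Real.log N ^ 2 := rfl
      rw [h12] at h8
      have h13 : 0 ≤ Real.log N ^ 2 := by positivity
      linarith
    linarith
  · right
    have hGd : ∀ q ∈ Gd c0 t N u v (fun _ => {(N : ℤ)}) N, Good (c0 * c2 / 2) N u v q := by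
      intro q hq
      unfold Gd at hq
      rw [mem_filter] at hq
      obtain ⟨_, ⟨a1, a2⟩, a3, a4⟩ := hq
      have hq0 : (0 : ℝ) < q := by exact_mod_cast a1.pos
      have h5 := hmain q hq0
      have hRF : (RF t N u v (fun _ => {(N : ℤ)}) N q).card ≤ repq q N u v := by
        unfold repq
        apply card_le_card
        intro p hp
        unfold RF at hp
        rw [mem_filter] at hp
        obtain ⟨hp1, q', hq', hqq', hpq⟩ := hp
        obtain ⟨b1, b2, b3, b4, b5, b6⟩ := hgood p hp1
        rw [b5] at hpq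
        rw [mem_filter, mem_Ioc]
        have h0 : 0 < q * q' := Nat.mul_pos a1.pos hq'.pos
        exact ⟨⟨b1, b2⟩, b3, q', hq', hqq', by omega⟩
      have hRFr : ((RF t N u v (fun _ => {(N : ℤ)}) N q).card : ℝ) ≤ repq q N u v := by exact_mod_cast hRF
      have hpos : 0 < c0 * c2 * ((N : ℝ) / N.totient * (((v : ℝ) - u) / (q * Real.log N ^ 2))) := by positivity
      have hlow := (h5.trans a4).trans hRFr
      refine ⟨a1, a2, ?_, by linarith⟩
      have hne : 0 < repq q N u v := by
        have : (0 : ℝ) < repq q N u v := lt_of_lt_of_le hpos hlow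
        exact_mod_cast this
      unfold repq at hne
      rw [card_pos] at hne
      obtain ⟨p, hp⟩ := hne
      rw [mem_filter] at hp
      obtain ⟨_, _, p', _, h6, h7⟩ := hp
      have : q * q ≤ q * p' := Nat.mul_le_mul_left _ h6
      rw [pow_two]
      omega
    refine ⟨⟨_, hGd, h⟩, ?_⟩
    -- a progression
    obtain ⟨i, hi, hcard, hne⟩ := block ρ (Gd c0 t N u v (fun _ => {(N : ℤ)}) N) (Nat.log 2 N + 1) (by
      intro q hq
      obtain ⟨a1, a2, a3, a4⟩ := hGd q hq
      refine ⟨a1, ?_, ?_⟩
      · have : (4 : ℝ) < q := by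
          have : (0 : ℝ) ≤ y₀ := Nat.cast_nonneg _
          linarith
        exact_mod_cast this
      · have h5 : q ≤ N := by nlinarith
        have := Nat.log_mono_right (b := 2) h5
        omega) hρ h
    obtain ⟨q0, hq0⟩ := hne
    rw [mem_filter] at hq0
    obtain ⟨b1, b2, b3, _⟩ := hGd q0 hq0.1
    set y := 2 ^ i with hy
    have hyX : (N : ℝ) ^ (1 / 9 : ℝ) ≤ 2 * y := by
      have : (q0 : ℝ) ≤ 2 * y := by exact_mod_cast hq0.2.2
      linarith
    have hyy : y₀ + 4 ≤ y := by
      have h5 : ((y₀ : ℝ) + 4) ≤ y := by linarith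
      exact_mod_cast h5
    have hyr : (4 : ℝ) ≤ y := by exact_mod_cast (by omega : 4 ≤ y)
    have hly : 0 < Real.log y := Real.log_pos (by linarith)
    have hyX2 : y ≤ N := by
      have : y < q0 := hq0.2.1
      nlinarith
    have hlyX : Real.log N ≤ 18 * Real.log y := by
      have h5 := Real.log_le_log (by positivity) hyX
      rw [Real.log_rpow hN0] at h5
      have h6 : Real.log (2 * (y : ℝ)) ≤ 2 * Real.log y := by
        have : 2 * (y : ℝ) ≤ (y : ℝ) ^ 2 := by nlinarith
        have h7 := Real.log_le_log (by positivity) this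
        rwa [Real.log_pow, Nat.cast_ofNat] at h7
      linarith
    have hL : ((Nat.log 2 N + 1 : ℕ) : ℝ) ≤ 4 * Real.log N := by
      have h5 : ((2 : ℝ)) ^ (Nat.log 2 N) ≤ N := by exact_mod_cast Nat.pow_log_le_self 2 (show N ≠ 0 by omega)
      have h6 := Real.log_le_log (by positivity) h5
      rw [Real.log_pow] at h6
      have h7 := Real.log_two_gt_d9
      have h8 : (1 : ℝ) ≤ Real.log N := by
        have h10 : Real.log 16 ≤ Real.log N := Real.log_le_log (by norm_num) hNr
        have h11 : Real.log 16 = 4 * Real.log 2 := by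
          rw [show (16 : ℝ) = 2 ^ 4 by norm_num, Real.log_pow]
          norm_num
        linarith
      push_cast
      have h12 : (0 : ℝ) ≤ (Nat.log 2 N : ℝ) := Nat.cast_nonneg _
      nlinarith
    obtain ⟨a, d, e1, e2, e3⟩ := h2 y (by omega)
      ((Gd c0 t N u v (fun _ => {(N : ℤ)}) N).filter (fun q => y < q ∧ q ≤ 2 * y)) (by
      intro p hp
      rw [mem_filter] at hp
      exact ⟨(hGd p hp.1).1, hp.2⟩) (by
      refine le_trans ?_ hcard
      have hL0 : (0 : ℝ) < ((Nat.log 2 N + 1 : ℕ) : ℝ) := by positivity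
      have h5 : ((Nat.log 2 N + 1 : ℕ) : ℝ) ≤ 72 * Real.log y := by linarith
      have h6 : (y : ℝ) / (72 * Real.log y) ≤ y / ((Nat.log 2 N + 1 : ℕ) : ℝ) :=
        div_le_div_of_nonneg_left (by linarith) hL0 h5
      have h7 := mul_le_mul_of_nonneg_left h6 hρ.le
      have h8 : ρ / 72 * ((y : ℝ) / Real.log y) = ρ * (y / (72 * Real.log y)) := by
        field_simp
      rw [h8]
      refine h7.trans (le_of_eq ?_)
      rw [hy]
      push_cast
      rfl)
    refine ⟨a, d, e1, e2.trans ?_, fun j hj => hGd _ (mem_filter.1 (e3 j hj)).1⟩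
    apply pow_le_pow_left₀ hly.le
    exact Real.log_le_log (by linarith) (by exact_mod_cast hyX2)

end Pool.Agent.Results.MP_61161c_nt.ProgressionsOfFactors
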