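import Mathlib
import Pool.Agent.Q263.SW.Asy
import Pool.Agent.Q263.SV.Alm
import Pool.Agent.TH464.PO.Gen

/-!
# Goldbach representations by almost primes, one of them with restricted digits

Fix a base `b ≥ 2`. For `k ≥ 1` choose for every position `i < k` a set `D i` of digits, in any way,
such that two digits in `D i` have a difference without prime factors outside `b` (for example two
consecutive digits, or, in base `10`, two digits with difference `1`, `2`, `4`, `5` or `8`). Let `S`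
be the set of the integers `0 ≤ m < b ^ k` whose `i`-th digit is in `D i` for all `i < k`; it may
have only `2 ^ k` elements.

(1) Let `ε > 0`. There are `L` and `k₀`, which depend on `b` and `ε` only, such that for all
`k ≥ k₀`, all choices of the sets of digits, all `z ≥ b` with `z ^ L ≤ b ^ k` and ALL `n` the number
of the `m ∈ S` such that neither `m` nor `n - m` has a prime factor `≤ z` is

  `(1 + θ) · g · ∏_{i ≥ 1} |D i| · ∏_{p ≤ z, p ∤ b, p ∣ n} (1 - 1 / p) · ∏_{p ≤ z, p ∤ b, p ∤ n} (1 - 2 / p)`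

with `|θ| ≤ ε`, where `g` is the number of the last digits `d ∈ D 0` with `d (n - d)` coprime to `b`.

(2) Let `A ≥ 1`. There are `r`, `k₀` and `c > 0`, which depend on `b` and `A` only, such that for
all `k ≥ k₀`, all choices of the sets of digits and all even `n` with `b ^ k ≤ n ≤ b ^ (A k)` for
which some `d ∈ D 0` has `d (n - d)` coprime to `b`, there are at least

  `c · ∏_{p ∣ n, p > 2} (p - 1) / (p - 2) · |S| / k ^ 2`

elements `m` of `S` such that `m` and `n - m` have at most `r` prime factors.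

So the almost prime representations with a summand in `S` have the lower bound of the conjectured
order, with the factor of Hardy and Littlewood. For example every large even `n` is the sum of two
almost primes one of which has only the decimal digits `1` and `3`.

Idea of the proof: the last digit and the residue class of `m` modulo the product of the small
primes are fixed, and the remaining primes are removed by the fundamental lemma of the sieve for
restricted digits in a fixed residue class (`Pool.Agent.Q263.SW`).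
-/

set_option autoImplicit false

namespace Pool.Agent.Results.MP_61161c_nt.RestrictedSummand

open Finset

/-- The integers `0 ≤ m < b ^ k` whose `i`-th digit in base `b` belongs to `D i`, for all `i < k`. -/
def Restricted (b k : ℕ) (D : Fin k → Finset ℕ) : Finset ℕ :=
  (Finset.range (b ^ k)).filter (fun m => ∀ i : Fin k, m / b ^ (i : ℕ) % b ∈ D i)

/-- Each `D i` is a set of digits, and it has two digits `c < c'` such that every prime factor of
`c' - c` divides `b`. -/
def DigitSets (b k : ℕ) (D : Fin k → Finset ℕ) : Prop :=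
  ∀ i, (∀ d ∈ D i, d < b) ∧ ∃ c ∈ D i, ∃ c' ∈ D i, c < c' ∧
    ∀ p : ℕ, p.Prime → p ∣ c' - c → p ∣ b

/-- The number of the integers in `D 0` such that `d (n - d)` is coprime to `b`. -/
def lastDigits (b k : ℕ) (D : Fin k → Finset ℕ) (n : ℕ) : ℕ :=
  (((Finset.univ : Finset (Fin k)).filter (fun i : Fin k => (i : ℕ) = 0)).biUnion
    (fun i => (D i).filter (fun d : ℕ => Int.gcd ((d : ℤ) * ((n : ℤ) - d)) b = 1))).card

/-- The product of the numbers of the elements of `D i` over the positions `i ≥ 1`. -/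
def otherDigits (k : ℕ) (D : Fin k → Finset ℕ) : ℕ :=
  ∏ i ∈ (Finset.univ : Finset (Fin k)).filter (fun i : Fin k => (i : ℕ) ≠ 0), (D i).card

/-- The main term. -/
noncomputable def mainTerm (b k : ℕ) (D : Fin k → Finset ℕ) (n z : ℕ) : ℝ :=
  (lastDigits b k D n : ℝ) * otherDigits k D *
    ∏ p ∈ (Finset.range (z + 1)).filter (fun p => p.Prime ∧ ¬ p ∣ b),
      (1 - (if p ∣ n then 1 else 2 : ℝ) / (p : ℝ))

/-- the forbidden classes -/
def Rg (n p : ℕ) : Finset ℕ := (range p).filter (fun a : ℕ => p ∣ a ∨ (p : ℤ) ∣ (n : ℤ) - a)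

lemma mem_Rg {p : ℕ} (hp : 0 < p) (n m : ℕ) : m % p ∈ Rg n p ↔ p ∣ m ∨ (p : ℤ) ∣ (n : ℤ) - m := by
  rw [Rg, Finset.mem_filter, Finset.mem_range]
  have h1 : p ∣ m % p ↔ p ∣ m := Nat.dvd_mod_iff dvd_rfl
  have h2 : (p : ℤ) ∣ (n : ℤ) - ((m % p : ℕ) : ℤ) ↔ (p : ℤ) ∣ (n : ℤ) - m := by
    have h3 : (p : ℤ) ∣ (m : ℤ) - ((m % p : ℕ) : ℤ) := by
      rw [Int.natCast_mod]
      exact ⟨(m : ℤ) / p, by have := Int.emod_add_mul_ediv (m : ℤ) p; linarith⟩
    constructor
    · intro h
      have := dvd_sub h h3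
      rwa [sub_sub_sub_cancel_right] at this
    · intro h
      have := dvd_add h h3
      rwa [sub_add_sub_cancel] at this
  rw [h1, h2]
  exact ⟨fun h => h.2, fun h => ⟨Nat.mod_lt _ hp, h⟩⟩

lemma Rg_card (n p : ℕ) (hp : p.Prime) : ((Rg n p).card : ℝ) = if p ∣ n then 1 else 2 := by
  have h1 : Rg n p = {0, n % p} := by
    ext a
    rw [Rg, Finset.mem_filter, Finset.mem_range, Finset.mem_insert, Finset.mem_singleton]
    have h3 : (p : ℤ) ∣ (n : ℤ) - a ↔ a ≡ n [MOD p] := Nat.modEq_iff_dvd.symm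
    rw [h3]
    constructor
    · rintro ⟨h1, h2 | h2⟩
      · left
        exact Nat.eq_zero_of_dvd_of_lt h2 h1
      · right
        unfold Nat.ModEq at h2
        rwa [Nat.mod_eq_of_lt h1] at h2
    · rintro (rfl | rfl)
      · exact ⟨hp.pos, Or.inl (dvd_zero p)⟩
      · exact ⟨Nat.mod_lt _ hp.pos, Or.inr (Nat.mod_modEq n p)⟩
  rw [h1]
  split_ifs with h
  · rw [Nat.mod_eq_zero_of_dvd h]
    simp
  · rw [Finset.card_pair (fun h2 => h (Nat.dvd_of_mod_eq_zero h2.symm))]
    norm_num

open Classical in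
/-- the asymptotic formula -/
lemma part1 (b : ℕ) (hb : 2 ≤ b) (ε : ℝ) (hε : 0 < ε) :
    ∃ L k₀ : ℕ, 1 ≤ L ∧ ∀ k : ℕ, k₀ ≤ k → ∀ D : Fin k → Finset ℕ, DigitSets b k D →
      ∀ z : ℕ, b ≤ z → z ^ L ≤ b ^ k → ∀ n : ℕ,
      |(((Restricted b k D).filter (fun m : ℕ => ∀ p : ℕ, p.Prime → p ≤ z →
          ¬ p ∣ m ∧ ¬ (p : ℤ) ∣ (n : ℤ) - m)).card : ℝ) - mainTerm b k D n z| ≤
        ε * mainTerm b k D n z := by
  obtain ⟨L, k₀, hL, hmain⟩ := Pool.Agent.Q263.SW.asy hb 2 ε hε
  refine ⟨L, k₀ + 1, hL, fun k hk D hD z hbz hz n => ?_⟩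
  have hk0 : 0 < k := by omega
  have h1 := hmain k (by omega) D (fun i => (hD i).1) (fun i => (hD i).2) z hz (Rg n) (by
    intro p hp _
    refine ⟨fun r hr => ?_, ?_⟩
    · rw [Rg, Finset.mem_filter, Finset.mem_range] at hr
      exact hr.1
    · have h2 := Rg_card n p hp
      have h4 : ((Rg n p).card : ℝ) ≤ ((2 : ℕ) : ℝ) := by
        rw [h2]
        split_ifs <;> norm_num
      exact_mod_cast h4)
  have hM : Pool.Agent.Q263.SW.Xt b k D (Rg n) z = mainTerm b k D n z := by
    unfold Pool.Agent.Q263.SW.Xt mainTerm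
    rw [dif_pos hk0]
    have e1 : ((D ⟨0, hk0⟩).filter (fun d => ∀ p : ℕ, p.Prime → p ∣ b → p ≤ z → d % p ∉ Rg n p)).card =
        lastDigits b k D n := by
      unfold lastDigits
      have e2 : (Finset.univ : Finset (Fin k)).filter (fun i : Fin k => (i : ℕ) = 0) = {⟨0, hk0⟩} := by
        ext i
        rw [Finset.mem_filter, Finset.mem_singleton]
        constructor
        · rintro ⟨_, h⟩
          exact Fin.ext h
        · rintro rfl
          exact ⟨Finset.mem_univ _, rfl⟩
      rw [e2, Finset.singleton_biUnion]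
      congr 1
      apply Finset.filter_congr
      intro d _
      constructor
      · intro h
        by_contra hne
        obtain ⟨p, hp, hpd⟩ := Nat.exists_prime_and_dvd hne
        have h5 : (p : ℤ) ∣ (Int.gcd ((d : ℤ) * ((n : ℤ) - d)) b : ℤ) := by exact_mod_cast hpd
        have h3 : (p : ℤ) ∣ (b : ℤ) := h5.trans (Int.gcd_dvd_right _ _)
        have h4 := h5.trans (Int.gcd_dvd_left _ _)
        have h3' : p ∣ b := by exact_mod_cast h3
        apply h p hp h3' ((Nat.le_of_dvd (by omega) h3').trans hbz)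
        rw [mem_Rg hp.pos]
        rcases (Nat.prime_iff_prime_int.1 hp).dvd_or_dvd h4 with h6 | h6
        · left
          exact_mod_cast h6
        · right
          exact h6
      · intro h p hp hpb _ h3
        rw [mem_Rg hp.pos] at h3
        have h4 : (p : ℤ) ∣ (d : ℤ) * ((n : ℤ) - d) := by
          rcases h3 with h3 | h3
          · exact Dvd.dvd.mul_right (by exact_mod_cast h3) _
          · exact Dvd.dvd.mul_left h3 _
        have h5 : (p : ℤ) ∣ (Int.gcd ((d : ℤ) * ((n : ℤ) - d)) b : ℤ) :=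
          Int.dvd_coe_gcd h4 (by exact_mod_cast hpb)
        rw [h] at h5
        have h6 : p ∣ 1 := by exact_mod_cast h5
        exact hp.one_lt.ne' (Nat.dvd_one.1 h6)
    have e3 : Pool.Agent.Q263.SW.Pd D = otherDigits k D := rfl
    rw [e1, e3]
    congr 1
    refine Finset.prod_congr rfl fun p hp => ?_
    rw [Finset.mem_filter] at hp
    rw [Rg_card n p hp.2.1]
  rw [hM] at h1
  have hset : (Pool.Agent.Q263.MD.Dig b k D).filter
      (fun m => ∀ p : ℕ, p.Prime → p ≤ z → m % p ∉ Rg n p) =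
      (Restricted b k D).filter (fun m : ℕ => ∀ p : ℕ, p.Prime → p ≤ z →
        ¬ p ∣ m ∧ ¬ (p : ℤ) ∣ (n : ℤ) - m) := by
    have eS : Pool.Agent.Q263.MD.Dig b k D = Restricted b k D := rfl
    rw [eS]
    apply Finset.filter_congr
    intro m _
    constructor
    · intro h p hp hpz
      have := h p hp hpz
      rw [mem_Rg hp.pos] at this
      exact not_or.1 this
    · intro h p hp hpz h3
      rw [mem_Rg hp.pos] at h3
      exact (not_or.2 (h p hp hpz)) h3
  rw [hset] at h1
  exact h1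

/-- the factor of Hardy and Littlewood -/
noncomputable def hl (p : ℕ) : ℝ := ((p : ℝ) - 1) / ((p : ℝ) - 2)

lemma hl_one {p : ℕ} (hp : 3 ≤ p) : 1 ≤ hl p := by
  have : (3 : ℝ) ≤ p := by exact_mod_cast hp
  unfold hl
  rw [le_div_iff₀ (by linarith)]
  linarith

lemma hl_two {p : ℕ} (hp : 3 ≤ p) : hl p ≤ 2 := by
  have : (3 : ℝ) ≤ p := by exact_mod_cast hp
  unfold hl
  rw [div_le_iff₀ (by linarith)]
  linarith

lemma odd_prime {n p : ℕ} (hp : p ∈ n.primeFactors.erase 2) : p.Prime ∧ p ∣ n ∧ 3 ≤ p := by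
  rw [Finset.mem_erase, Nat.mem_primeFactors] at hp
  have := hp.2.1.two_le
  exact ⟨hp.2.1, hp.2.2.1, by omega⟩

open Pool.Agent.H373R2.T7 Pool.Agent.W123.RP in
open Classical in
/-- the twin prime product -/
lemma twin_low : ∃ v : ℝ, 0 < v ∧ ∀ z : ℕ, 2 ≤ z → v / Real.log z ^ 2 ≤
    ∏ p ∈ (Finset.Icc 1 z).filter Nat.Prime, (if p = 2 then 1 / 2 else 1 - 2 / (p : ℝ)) := by
  obtain ⟨v, hv, hlow⟩ := Pool.Agent.TH464.PO.V_lower_unif 2
  refine ⟨v, hv, fun z hz => ?_⟩
  obtain ⟨Q, hQ⟩ : ∃ Q : ℕ → ℕ → Prop, Q = fun p m => m % p ∈ Rg 2 p := ⟨_, rfl⟩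
  have hnu : ∀ p : ℕ, p.Prime → nuB Q p = (Rg 2 p).card := by
    intro p hp
    unfold nuB
    congr 1
    ext r
    rw [mem_filter, mem_range, hQ]
    constructor
    · rintro ⟨h1, h2⟩
      change r % p ∈ Rg 2 p at h2
      rwa [Nat.mod_eq_of_lt h1] at h2
    · intro h
      have h1 : r < p := by
        rw [Rg, mem_filter, mem_range] at h
        exact h.1
      refine ⟨h1, ?_⟩
      change r % p ∈ Rg 2 p
      rwa [Nat.mod_eq_of_lt h1]
  have hcard : ∀ p : ℕ, p.Prime → (nuB Q p : ℝ) = if p = 2 then 1 else 2 := by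
    intro p hp
    rw [hnu p hp, Rg_card 2 p hp]
    congr 1
    rw [Nat.prime_dvd_prime_iff_eq hp Nat.prime_two]
  have hper : PerB Q 2 := by
    refine ⟨fun p n => ?_, fun p hp => ?_⟩
    · rw [hQ]
      simp only
      rw [Nat.mod_mod]
    · have h := hcard p hp
      have : (nuB Q p : ℝ) ≤ ((2 : ℕ) : ℝ) := by
        rw [h]
        split_ifs <;> norm_num
      exact_mod_cast this
  have hadm : ∀ p : ℕ, p.Prime → nuB Q p < p := by
    intro p hp
    have h := hcard p hp
    have h2 := hp.two_le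
    split_ifs at h with h3
    · have : nuB Q p = 1 := by exact_mod_cast h
      omega
    · have : nuB Q p = 2 := by exact_mod_cast h
      omega
  refine (hlow Q hper hadm z hz).trans (le_of_eq ?_)
  unfold Vq pz
  refine Finset.prod_congr rfl fun p hp => ?_
  rw [mem_filter] at hp
  rw [hcard p hp.2]
  split_ifs with h
  · rw [h]
    norm_num
  · rfl

lemma len_le {z n j : ℕ} (hn : n ≠ 0) (h : ∀ p, p.Prime → p ∣ n → z < p)
    (hj : ∀ i, z ^ i ≤ n → i ≤ j) : n.primeFactorsList.length ≤ j := by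
  apply hj
  calc z ^ n.primeFactorsList.length ≤ n.primeFactorsList.prod := by
        apply Pool.Agent.Q263.SV.pow_len
        intro x hx
        exact (h x (Nat.prime_of_mem_primeFactorsList hx) (Nat.dvd_of_mem_primeFactorsList hx)).le
    _ = n := Nat.prod_primeFactorsList hn

open Classical in
theorem result : ∀ b : ℕ, 2 ≤ b →
    (∀ ε : ℝ, 0 < ε → ∃ L k₀ : ℕ, 1 ≤ L ∧ ∀ k : ℕ, k₀ ≤ k → ∀ D : Fin k → Finset ℕ, DigitSets b k D →
      ∀ z : ℕ, b ≤ z → z ^ L ≤ b ^ k → ∀ n : ℕ,
      |(((Restricted b k D).filter (fun m : ℕ => ∀ p : ℕ, p.Prime → p ≤ z →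
          ¬ p ∣ m ∧ ¬ (p : ℤ) ∣ (n : ℤ) - m)).card : ℝ) - mainTerm b k D n z| ≤
        ε * mainTerm b k D n z) ∧
    (∀ A : ℕ, 1 ≤ A → ∃ (r k₀ : ℕ) (c : ℝ), 0 < c ∧ ∀ k : ℕ, k₀ ≤ k →
      ∀ D : Fin k → Finset ℕ, DigitSets b k D → ∀ n : ℕ, Even n → b ^ k ≤ n → n ≤ b ^ (A * k) →
      1 ≤ lastDigits b k D n →
      c * (∏ p ∈ n.primeFactors.erase 2, ((p : ℝ) - 1) / ((p : ℝ) - 2)) *
          (Restricted b k D).card / (k : ℝ) ^ 2 ≤
        (((Restricted b k D).filter (fun m : ℕ => 0 < m ∧ m < n ∧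
          m.primeFactorsList.length ≤ r ∧ (n - m).primeFactorsList.length ≤ r)).card : ℝ)) := by
  intro b hb
  refine ⟨fun ε hε => part1 b hb ε hε, ?_⟩
  intro A hA
  obtain ⟨L, k₀, hL, hmain⟩ := part1 b hb (1 / 2) (by norm_num)
  obtain ⟨v, hv, htwin⟩ := twin_low
  have hb0 : (0 : ℝ) < b := by exact_mod_cast (by omega : 0 < b)
  have hlb : 0 < Real.log b := Real.log_pos (by exact_mod_cast (by omega : 1 < b))
  refine ⟨2 * L * A, k₀ + L, v / (2 * b * Real.log b ^ 2 * 2 ^ (b + 2 * L * A)), by positivity, ?_⟩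
  intro k hk D hD n hn hbn hnb hg
  have hk0 : 0 < k := by omega
  have hkr : (0 : ℝ) < k := by exact_mod_cast hk0
  obtain ⟨z, hz⟩ : ∃ z, z = b ^ (k / L) := ⟨_, rfl⟩
  have hkL : 1 ≤ k / L := (Nat.one_le_div_iff (by omega)).2 (by omega)
  have hzb : b ≤ z := by rw [hz]; exact Nat.le_self_pow (by omega) b
  have hzL : z ^ L ≤ b ^ k := by
    rw [hz, ← pow_mul]
    exact Nat.pow_le_pow_right (by omega) (Nat.div_mul_le_self k L)
  have hexp : ∀ i e : ℕ, z ^ i ≤ b ^ (e * k) → i ≤ 2 * L * e := by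
    intro i e hi
    rw [hz, ← pow_mul] at hi
    have h2 : k / L * i ≤ e * k := (Nat.pow_le_pow_iff_right (by omega)).1 hi
    have h3 : k < L * (k / L + 1) := Nat.lt_mul_div_succ k (by omega)
    have h4 : k ≤ 2 * L * (k / L) := by
      have : L * (k / L + 1) ≤ L * (2 * (k / L)) := Nat.mul_le_mul_left L (by omega)
      calc k ≤ L * (2 * (k / L)) := by omega
        _ = _ := by ring
    have h5 : k / L * i ≤ k / L * (2 * L * e) := by
      calc k / L * i ≤ e * k := h2
        _ ≤ e * (2 * L * (k / L)) := Nat.mul_le_mul_left _ h4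
        _ = _ := by ring
    exact Nat.le_of_mul_le_mul_left h5 hkL
  have h1 := (abs_le.1 (hmain k (by omega) D hD z hzb hzL n)).1
  set S := Restricted b k D with hS
  have hn0 : n ≠ 0 := by
    have : 1 ≤ b ^ k := Nat.one_le_pow _ _ (by omega)
    omega
  -- the sieve product
  obtain ⟨W, hW⟩ : ∃ W : ℝ, W = ∏ p ∈ (Finset.range (z + 1)).filter (fun p => p.Prime ∧ ¬ p ∣ b),
      (1 - (if p ∣ n then 1 else 2 : ℝ) / (p : ℝ)) := ⟨_, rfl⟩
  obtain ⟨h2, hh2⟩ : ∃ h2 : ℕ → ℝ, h2 = fun p => if p ∣ n ∧ p ≠ 2 then hl p else 1 := ⟨_, rfl⟩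
  have hh1 : ∀ p : ℕ, p.Prime → 1 ≤ h2 p := by
    intro p hp
    rw [hh2]
    simp only
    split_ifs with h
    · have := hp.two_le
      exact hl_one (by omega)
    · exact le_rfl
  have hWeq : W = (∏ p ∈ (Finset.range (z + 1)).filter (fun p => p.Prime ∧ ¬ p ∣ b),
      (if p = 2 then 1 / 2 else 1 - 2 / (p : ℝ))) *
      ∏ p ∈ (Finset.range (z + 1)).filter (fun p => p.Prime ∧ ¬ p ∣ b), h2 p := by
    rw [hW, ← Finset.prod_mul_distrib]
    refine Finset.prod_congr rfl fun p hp => ?_
    rw [Finset.mem_filter] at hp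
    have hp2 := hp.2.1.two_le
    rw [hh2]
    simp only
    rcases eq_or_ne p 2 with rfl | hne
    · have h3 : 2 ∣ n := hn.two_dvd
      rw [if_pos h3]
      norm_num
    · have h3 : (3 : ℝ) ≤ p := by exact_mod_cast (by omega : 3 ≤ p)
      rw [if_neg hne]
      by_cases h4 : p ∣ n
      · rw [if_pos h4, if_pos ⟨h4, hne⟩]
        unfold hl
        have h5 : (p : ℝ) - 2 ≠ 0 := by linarith
        have h6 : (p : ℝ) ≠ 0 := by linarith
        field_simp
      · rw [if_neg h4, if_neg (fun h => h4 h.1), mul_one]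
  have hfac : ∀ p : ℕ, p.Prime → 0 < (if p = 2 then 1 / 2 else 1 - 2 / (p : ℝ)) ∧
      (if p = 2 then 1 / 2 else 1 - 2 / (p : ℝ)) ≤ 1 := by
    intro p hp
    have hp2 := hp.two_le
    split_ifs with h
    · norm_num
    · have h3 : (3 : ℝ) ≤ p := by exact_mod_cast (by omega : 3 ≤ p)
      constructor
      · rw [sub_pos, div_lt_one (by linarith)]
        linarith
      · have : 0 ≤ 2 / (p : ℝ) := by positivity
        linarith
  have hW1 : v / (k ^ 2 * Real.log b ^ 2) ≤
      ∏ p ∈ (Finset.range (z + 1)).filter (fun p => p.Prime ∧ ¬ p ∣ b),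
        (if p = 2 then 1 / 2 else 1 - 2 / (p : ℝ)) := by
    have h3 : v / (k ^ 2 * Real.log b ^ 2) ≤ v / Real.log z ^ 2 := by
      have hz2 : (2 : ℝ) ≤ z := by exact_mod_cast (hb.trans hzb)
      have hlz : 0 < Real.log z := Real.log_pos (by linarith)
      apply div_le_div_of_nonneg_left hv.le (by positivity)
      rw [← mul_pow]
      apply pow_le_pow_left₀ hlz.le
      have h4 : (z : ℝ) ≤ (b : ℝ) ^ k := by
        have : z ≤ b ^ k := (Nat.le_self_pow (by omega) z).trans hzL
        exact_mod_cast this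
      calc Real.log z ≤ Real.log ((b : ℝ) ^ k) := Real.log_le_log (by linarith) h4
        _ = k * Real.log b := Real.log_pow _ _
    refine h3.trans ((htwin z (hb.trans hzb)).trans ?_)
    apply Finset.prod_le_prod_of_subset_of_le_one
    · intro p hp
      rw [Finset.mem_filter, Finset.mem_range] at hp
      rw [Finset.mem_filter, Finset.mem_Icc]
      exact ⟨⟨hp.2.1.one_lt.le, by omega⟩, hp.2.1⟩
    · intro p hp
      rw [Finset.mem_filter] at hp
      exact (hfac p hp.2).1.le
    · intro p hp _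
      rw [Finset.mem_filter] at hp
      exact (hfac p hp.2).2
  -- the factor of Hardy and Littlewood
  set U := n.primeFactors.erase 2 with hU
  have hUhl : ∀ p ∈ U, 1 ≤ hl p ∧ hl p ≤ 2 := fun p hp => by
    obtain ⟨_, _, h5⟩ := odd_prime hp
    exact ⟨hl_one h5, hl_two h5⟩
  have hbig : (U.filter (fun p => z < p)).card ≤ 2 * L * A := by
    apply hexp _ A
    calc z ^ (U.filter (fun p => z < p)).card = ∏ _p ∈ U.filter (fun p => z < p), z := by
          rw [Finset.prod_const]
      _ ≤ ∏ p ∈ U.filter (fun p => z < p), p := by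
          apply Finset.prod_le_prod'
          intro p hp
          rw [Finset.mem_filter] at hp
          exact hp.2.le
      _ ≤ ∏ p ∈ n.primeFactors, p := by
          apply Finset.prod_le_prod_of_subset_of_one_le'
          · intro p hp
            rw [Finset.mem_filter, hU, Finset.mem_erase] at hp
            exact hp.1.2
          · intro p hp _
            exact (Nat.prime_of_mem_primeFactors hp).one_lt.le
      _ ≤ n := Nat.le_of_dvd (Nat.pos_of_ne_zero hn0) (Nat.prod_primeFactors_dvd n)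
      _ ≤ b ^ (A * k) := hnb
  have hUsplit : ∏ p ∈ U, hl p ≤ (∏ p ∈ (Finset.range (z + 1)).filter (fun p => p.Prime ∧ ¬ p ∣ b), h2 p) *
      2 ^ (b + 2 * L * A) := by
    rw [← Finset.prod_filter_mul_prod_filter_not U (fun p => p ≤ z ∧ ¬ p ∣ b)]
    apply mul_le_mul
    · have e1 : ∏ p ∈ U.filter (fun p => p ≤ z ∧ ¬ p ∣ b), hl p =
          ∏ p ∈ U.filter (fun p => p ≤ z ∧ ¬ p ∣ b), h2 p := by
        refine Finset.prod_congr rfl fun p hp => ?_
        rw [Finset.mem_filter] at hp
        obtain ⟨h5, h6, h7⟩ := odd_prime hp.1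
        rw [hh2]
        simp only
        rw [if_pos ⟨h6, by omega⟩]
      rw [e1]
      apply Finset.prod_le_prod_of_subset_of_one_le
      · intro p hp
        rw [Finset.mem_filter] at hp
        obtain ⟨h5, h6, h7⟩ := odd_prime hp.1
        rw [Finset.mem_filter, Finset.mem_range]
        exact ⟨by omega, h5, hp.2.2⟩
      · intro p hp
        rw [Finset.mem_filter] at hp
        have := hh1 p (odd_prime hp.1).1
        linarith
      · intro p hp _
        rw [Finset.mem_filter] at hp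
        exact hh1 p hp.2.1
    · have h5 : (U.filter (fun p => ¬ (p ≤ z ∧ ¬ p ∣ b))).card ≤ b + 2 * L * A := by
        have h6 : U.filter (fun p => ¬ (p ≤ z ∧ ¬ p ∣ b)) ⊆ (Finset.Icc 1 b) ∪ U.filter (fun p => z < p) := by
          intro p hp
          rw [Finset.mem_filter] at hp
          rw [Finset.mem_union, Finset.mem_Icc, Finset.mem_filter]
          by_cases h7 : p ≤ z
          · left
            have h8 : p ∣ b := by
              by_contra h9
              exact hp.2 ⟨h7, h9⟩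
            exact ⟨(odd_prime hp.1).1.one_lt.le, Nat.le_of_dvd (by omega) h8⟩
          · right
            exact ⟨hp.1, by omega⟩
        refine (Finset.card_le_card h6).trans ((Finset.card_union_le _ _).trans ?_)
        rw [Nat.card_Icc, Nat.add_sub_cancel]
        omega
      calc ∏ p ∈ U.filter (fun p => ¬ (p ≤ z ∧ ¬ p ∣ b)), hl p ≤
            ∏ _p ∈ U.filter (fun p => ¬ (p ≤ z ∧ ¬ p ∣ b)), (2 : ℝ) := by
            apply Finset.prod_le_prod
            · intro p hp
              rw [Finset.mem_filter] at hp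
              have := (hUhl p hp.1).1
              linarith
            · intro p hp
              rw [Finset.mem_filter] at hp
              exact (hUhl p hp.1).2
        _ = 2 ^ (U.filter (fun p => ¬ (p ≤ z ∧ ¬ p ∣ b))).card := by rw [Finset.prod_const]
        _ ≤ 2 ^ (b + 2 * L * A) := pow_le_pow_right₀ (by norm_num) h5
    · apply Finset.prod_nonneg
      intro p hp
      rw [Finset.mem_filter] at hp
      have := (hUhl p hp.1).1
      linarith
    · apply Finset.prod_nonneg
      intro p hp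
      rw [Finset.mem_filter] at hp
      have := hh1 p hp.2.1
      linarith
  obtain ⟨H, hH⟩ : ∃ H : ℝ, H = ∏ p ∈ U, ((p : ℝ) - 1) / ((p : ℝ) - 2) := ⟨_, rfl⟩
  have hHe : ∏ p ∈ U, hl p = H := by rw [hH]; rfl
  rw [hHe] at hUsplit
  have hH0 : 0 ≤ H := by
    rw [← hHe]
    exact Finset.prod_nonneg fun p hp => by have := (hUhl p hp).1; linarith
  rw [← hH]
  obtain ⟨P2, hP2⟩ : ∃ P2 : ℝ, P2 = ∏ p ∈ (Finset.range (z + 1)).filter (fun p => p.Prime ∧ ¬ p ∣ b),
    h2 p := ⟨_, rfl⟩
  rw [← hP2] at hUsplit hWeq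
  have hP20 : 0 ≤ P2 := by
    rw [hP2]
    apply Finset.prod_nonneg
    intro p hp
    rw [Finset.mem_filter] at hp
    have := hh1 p hp.2.1
    linarith
  have hWlow : v / (k ^ 2 * Real.log b ^ 2) * (H / 2 ^ (b + 2 * L * A)) ≤ W := by
    rw [hWeq]
    apply mul_le_mul hW1 _ (by positivity)
    · exact (by positivity : (0 : ℝ) ≤ v / (k ^ 2 * Real.log b ^ 2)).trans hW1
    · rw [div_le_iff₀ (by positivity)]
      exact hUsplit
  have hW0 : 0 ≤ W := (by positivity : (0 : ℝ) ≤
    v / (k ^ 2 * Real.log b ^ 2) * (H / 2 ^ (b + 2 * L * A))).trans hWlow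
  -- the number of the elements of `S`
  have hSc : (S.card : ℝ) ≤ b * otherDigits k D := by
    have h3 := Pool.Agent.Q263.SW.card_all hk0 D (fun i => (hD i).1)
    have h4 : (D ⟨0, hk0⟩).card ≤ b := by
      have : D ⟨0, hk0⟩ ⊆ Finset.range b := fun d hd => Finset.mem_range.2 ((hD _).1 d hd)
      simpa using Finset.card_le_card this
    have h5 : S.card = (D ⟨0, hk0⟩).card * otherDigits k D := h3
    rw [h5]
    push_cast
    exact mul_le_mul_of_nonneg_right (by exact_mod_cast h4) (Nat.cast_nonneg _)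
  have hM : (otherDigits k D : ℝ) * W ≤ mainTerm b k D n z := by
    unfold mainTerm
    rw [← hW]
    apply mul_le_mul_of_nonneg_right _ hW0
    have : (1 : ℝ) ≤ lastDigits b k D n := by exact_mod_cast hg
    have h0 : (0 : ℝ) ≤ otherDigits k D := Nat.cast_nonneg _
    nlinarith
  have hfin : v / (2 * b * Real.log b ^ 2 * 2 ^ (b + 2 * L * A)) * H * S.card / (k : ℝ) ^ 2 ≤
      1 / 2 * mainTerm b k D n z := by
    have h3 : v / (2 * b * Real.log b ^ 2 * 2 ^ (b + 2 * L * A)) * H * S.card / (k : ℝ) ^ 2 =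
        1 / 2 * (S.card / b * (v / (k ^ 2 * Real.log b ^ 2) * (H / 2 ^ (b + 2 * L * A)))) := by
      field_simp
    rw [h3]
    apply mul_le_mul_of_nonneg_left _ (by norm_num)
    refine le_trans ?_ hM
    apply mul_le_mul _ hWlow (by positivity) (Nat.cast_nonneg _)
    rw [div_le_iff₀ hb0]
    linarith
  have h4 : 1 / 2 * mainTerm b k D n z ≤ ((S.filter (fun m : ℕ => ∀ p : ℕ, p.Prime → p ≤ z →
      ¬ p ∣ m ∧ ¬ (p : ℤ) ∣ (n : ℤ) - m)).card : ℝ) := by linarith
  refine (hfin.trans h4).trans (Nat.cast_le.2 (Finset.card_le_card ?_))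
  intro m hm
  rw [Finset.mem_filter] at hm ⊢
  obtain ⟨hmS, hm2⟩ := hm
  have hmb : m < b ^ k := by
    rw [hS] at hmS
    unfold Restricted at hmS
    rw [Finset.mem_filter, Finset.mem_range] at hmS
    exact hmS.1
  have hmn : m < n := lt_of_lt_of_le hmb hbn
  have hm0 : 0 < m := by
    rcases Nat.eq_zero_or_pos m with h | h
    · exfalso
      rw [h] at hm2
      exact (hm2 2 Nat.prime_two (hb.trans hzb)).1 (dvd_zero 2)
    · exact h
  refine ⟨hmS, hm0, hmn, ?_, ?_⟩
  · refine (len_le (z := z) (j := 2 * L * 1) hm0.ne' (fun p hp hpm => ?_)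
      (fun i hi => hexp i 1 (by rw [one_mul]; exact hi.trans hmb.le))).trans (Nat.mul_le_mul_left _ hA)
    by_contra hcon
    exact (hm2 p hp (by omega)).1 hpm
  · refine len_le (z := z) (by omega) (fun p hp hpm => ?_)
      (fun i hi => hexp i A (hi.trans ((Nat.sub_le n m).trans hnb)))
    by_contra hcon
    apply (hm2 p hp (by omega)).2
    have h4 : (p : ℤ) ∣ ((n - m : ℕ) : ℤ) := by exact_mod_cast hpm
    rwa [Nat.cast_sub hmn.le] at h4

end Pool.Agent.Results.MP_61161c_nt.RestrictedSummand
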